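import Pool.Agent.Run7.h927.WS.L5

/-!
# MP_927be3_nt: the least dimension for almost all radii is `k+1`, for almost every centre

Let `k ≥ 2`. For a centre `θ ∈ ℝ^d` a number `n` (the `k`-th power of the radius) is called exceptional if somewhere in
`[n, n+1]` the asymptotic formula for the number of the lattice points in thin shells around the `k`-sphere fails: for some
`ν ∈ [n, n+1]` and some `ε ∈ [ν^(-1/(50k)), 1]` the number of the `m ∈ ℤ^d` with `|∑ |m_i - θ_i|^k - ν| ≤ ε` differs from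
`2 ε (2 Γ(1+1/k))^d / Γ(d/k) ν^(d/k-1)` by more than `ε ν^(d/k - 1 - 1/(50k))`.

* If `d ≥ k+1`, then for almost every centre `θ ∈ ℝ^d` there are at most `N^(1 - 1/(17k))` exceptional `n ≤ N`, `N` large.
* If `1 ≤ d ≤ k`, then for every centre all large `n` are exceptional.

So `k+1` is the least dimension in which the formula holds for almost all radii.
-/

namespace Pool.Agent.Results.MP_927be3_nt.AlmostAllRadii

open MeasureTheory Filter

/-- the lattice points in the shell around the `k`-sphere with centre `θ` and radius `ν^(1/k)` -/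
def Shell (k d : ℕ) (θ : Fin d → ℝ) (ν ε : ℝ) : Set (Fin d → ℤ) :=
  {m | |∑ i, |(m i : ℝ) - θ i| ^ k - ν| ≤ ε}

/-- the constant of the singular integral -/
noncomputable def singular (k d : ℕ) : ℝ := (2 * Real.Gamma (1 / k + 1)) ^ d / Real.Gamma ((d : ℝ) / k)

/-- the asymptotic formula fails somewhere in `[n, n+1]` -/
def Exceptional (k d : ℕ) (θ : Fin d → ℝ) (n : ℕ) : Prop :=
  ∃ ν ∈ Set.Icc (n : ℝ) (n + 1), ∃ ε : ℝ, ν ^ (-(1 / (50 * k)) : ℝ) ≤ ε ∧ ε ≤ 1 ∧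
    ε * ν ^ ((d : ℝ) / k - 1 - 1 / (50 * k)) <
      |((Shell k d θ ν ε).ncard : ℝ) - 2 * ε * (singular k d * ν ^ ((d : ℝ) / k - 1))|

open Classical in
theorem result (k : ℕ) (hk : 2 ≤ k) :
    (∀ d : ℕ, k < d → ∀ᵐ θ : Fin d → ℝ, ∀ᶠ N : ℕ in atTop,
      (((Finset.range (N + 1)).filter (fun n => Exceptional k d θ n)).card : ℝ) ≤ (N : ℝ) ^ (1 - 1 / (17 * k) : ℝ)) ∧
    (∀ d : ℕ, 1 ≤ d → d ≤ k → ∀ θ : Fin d → ℝ, ∀ᶠ n : ℕ in atTop, Exceptional k d θ n) := by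
  refine ⟨fun d hd => Pool.Agent.Run7.h927.WS.almost_centres k d hk hd, ?_⟩
  intro d hd1 hd2 θ
  have hk0 : (0 : ℝ) < k := by exact_mod_cast (by omega : 0 < k)
  have hd0 : (0 : ℝ) < d := by exact_mod_cast (by omega : 0 < d)
  have hdk : (d : ℝ) ≤ k := by exact_mod_cast hd2
  have hC : 0 < singular k d :=
    div_pos (pow_pos (mul_pos two_pos (Real.Gamma_pos_of_pos (by positivity))) d) (Real.Gamma_pos_of_pos (by positivity))
  obtain ⟨C, hCe⟩ : ∃ C, C = singular k d := ⟨_, rfl⟩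
  rw [← hCe] at hC
  obtain ⟨δ, hδ⟩ : ∃ δ : ℝ, δ = 1 / (50 * (k : ℝ)) := ⟨_, rfl⟩
  have hδ0 : 0 < δ := by rw [hδ]; positivity
  obtain ⟨ε, hε⟩ : ∃ ε : ℝ, ε = min 1 (1 / (4 * C)) := ⟨_, rfl⟩
  have hε0 : 0 < ε := by rw [hε]; exact lt_min one_pos (by positivity)
  have hε1 : ε ≤ 1 := by rw [hε]; exact min_le_left _ _
  have hε2 : 2 * ε * C ≤ 1 / 2 := by
    have h1 : ε ≤ 1 / (4 * C) := by rw [hε]; exact min_le_right _ _
    calc 2 * ε * C ≤ 2 * (1 / (4 * C)) * C := by gcongr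
      _ = 1 / 2 := by
          field_simp
          norm_num
  have ht : Tendsto (fun n : ℕ => (n : ℝ) ^ (-δ)) atTop (nhds 0) :=
    (tendsto_rpow_neg_atTop hδ0).comp tendsto_natCast_atTop_atTop
  filter_upwards [ht.eventually (ge_mem_nhds hε0), ht.eventually (gt_mem_nhds hC), eventually_ge_atTop 1] with n h1 h2 h3
  have hn1 : (1 : ℝ) ≤ n := by exact_mod_cast h3
  have hn0 : (0 : ℝ) < n := by linarith
  refine ⟨n, ⟨le_rfl, by linarith⟩, ε, by rw [← hδ]; exact h1, hε1, ?_⟩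
  rw [← hδ, ← hCe]
  obtain ⟨b, hb⟩ : ∃ b : ℝ, b = (d : ℝ) / k - 1 := ⟨_, rfl⟩
  have hb0 : b ≤ 0 := by
    rw [hb, sub_nonpos, div_le_one hk0]
    exact hdk
  rw [← hb]
  have hnb : (n : ℝ) ^ b ≤ 1 := Real.rpow_le_one_of_one_le_of_nonpos hn1 hb0
  have hnb0 : 0 < (n : ℝ) ^ b := by positivity
  obtain ⟨x, hx⟩ : ∃ x : ℝ, x = 2 * ε * (C * (n : ℝ) ^ b) := ⟨_, rfl⟩
  have hx0 : 0 < x := by rw [hx]; positivity
  have hx1 : x ≤ 1 / 2 := by
    rw [hx]
    calc 2 * ε * (C * (n : ℝ) ^ b) ≤ 2 * ε * (C * 1) := by gcongr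
      _ ≤ 1 / 2 := by linarith
  have hgap : ∀ R : ℕ, x ≤ |(R : ℝ) - x| := by
    intro R
    rcases Nat.eq_zero_or_pos R with h | h
    · rw [h, Nat.cast_zero, zero_sub, abs_neg, abs_of_pos hx0]
    · have h4 : (1 : ℝ) ≤ R := by exact_mod_cast h
      rw [abs_of_nonneg (by linarith)]
      linarith
  rw [← hx]
  refine lt_of_lt_of_le ?_ (hgap _)
  rw [hx]
  have h5 : (n : ℝ) ^ (b - δ) = (n : ℝ) ^ (-δ) * (n : ℝ) ^ b := by
    rw [← Real.rpow_add hn0]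
    congr 1
    ring
  rw [h5]
  calc ε * ((n : ℝ) ^ (-δ) * (n : ℝ) ^ b) < ε * (C * (n : ℝ) ^ b) := by
        apply mul_lt_mul_of_pos_left _ hε0
        exact mul_lt_mul_of_pos_right h2 hnb0
    _ ≤ 2 * ε * (C * (n : ℝ) ^ b) := by
        have : 0 < ε * (C * (n : ℝ) ^ b) := by positivity
        linarith

end Pool.Agent.Results.MP_927be3_nt.AlmostAllRadii
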