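import Mathlib
import Pool.Agent.Run7.h757.MW.Asym
import Pool.Agent.Run7.h382.MW.AFEJ
import Pool.Agent.Run7.h544.MW.LAT
import Pool.Agent.Run7.h544.MW.AVG

/-!
# Lattice points on generic arithmetic `k`-spheres in dimension `d ≥ 2 k + 1`

For almost all `(lam_1, ..., lam_d) ∈ (0, ∞)^d` the number of `m ∈ ℤ^d` with `∑ ⌊lam_i |m_i|^k⌋ = M` is asymptotic to
`(2 Γ(1 + 1/k))^d / Γ(d/k) ∏ lam_i^(-1/k) M^(d/k - 1)` as `M → ∞` through all the integers, as soon as `d ≥ 2 k + 1`. With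
`lam_i = 1` this is the arithmetic sphere `|m_1|^k + ... + |m_d|^k = r^k = M` of the problem (where a singular series appears).

Proof. Circle method modulo `Q ≍ N ^ k` and a mean value estimate over `lam` for the exponential sums
`∑ e(a ⌊lam |m|^k⌋)`, `|m| ≤ K N`: the mean square over `lam ∈ [0, A]` is at most `(log N)^C (N + |a|^(-2/k))`. The sums at
different coordinates of `lam` are independent. The number of points is compared with its short averages over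
`H = N ^ k / (log N) ^ B` values of `M` (Fejer kernel); these are given by the volume of the body `∑ lam_i |x_i|^k ≤ y` and its
boundary.
-/

open Finset MeasureTheory Filter

namespace Pool.Agent.Results.MP_927be3_nt.GenericSphereAsymptotic

/-- the points of the generic sphere -/
def Sph (k d : ℕ) (lam : Fin d → ℝ) (M : ℕ) : Set (Fin d → ℤ) :=
  {m | ∑ i, ⌊lam i * |(m i : ℝ)| ^ k⌋₊ = M}

/-- the constant -/
noncomputable def Cst (k d : ℕ) (lam : Fin d → ℝ) : ℝ :=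
  (2 * Real.Gamma (1 / k + 1)) ^ d / Real.Gamma (d / k) * ∏ i, lam i ^ (-(1 / (k : ℝ)))

theorem Cst_pos {k d : ℕ} {lam : Fin d → ℝ} (hk : 1 ≤ k) (hd : 1 ≤ d) (hlam : ∀ i, 0 < lam i) :
    0 < Cst k d lam := by
  unfold Cst
  have hk0 : (0 : ℝ) < k := by exact_mod_cast hk
  have hd0 : (0 : ℝ) < d := by exact_mod_cast hd
  have h1 : 0 < Real.Gamma (1 / k + 1) := Real.Gamma_pos_of_pos (by positivity)
  have h2 : 0 < Real.Gamma ((d : ℝ) / k) := Real.Gamma_pos_of_pos (by positivity)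
  have h3 : 0 < ∏ i, lam i ^ (-(1 / (k : ℝ))) :=
    Finset.prod_pos fun i _ => Real.rpow_pos_of_pos (hlam i) _
  positivity

theorem Cst_eq {k d : ℕ} {lam : Fin d → ℝ} (hk : 1 ≤ k) (hd : 1 ≤ d) :
    Pool.Agent.Run7.h757.MW.Vol d k lam * ((d : ℝ) / k) = Cst k d lam := by
  unfold Pool.Agent.Run7.h757.MW.Vol Cst
  have hk0 : (0 : ℝ) < k := by exact_mod_cast hk
  have hd0 : (0 : ℝ) < d := by exact_mod_cast hd
  have h2 : 0 < Real.Gamma ((d : ℝ) / k) := Real.Gamma_pos_of_pos (by positivity)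
  rw [Real.Gamma_add_one (by positivity : (d : ℝ) / k ≠ 0)]
  field_simp

theorem Sph_eq (k d : ℕ) (lam : Fin d → ℝ) (M : ℕ) :
    ((Sph k d lam M).ncard : ℝ) = Pool.Agent.Run7.h757.MW.NZ d k lam M := by
  unfold Sph Pool.Agent.Run7.h757.MW.NZ Pool.Agent.Run7.h757.MW.fl
  have h : ∀ (i : Fin d) (z : ℤ), lam i * |(z : ℝ)| ^ k = lam i * ((z.natAbs ^ k : ℕ) : ℝ) := by
    intro i z
    push_cast
    rw [Nat.cast_natAbs]
    push_cast
    rfl
  simp only [h]

theorem finite_Sph {k d : ℕ} {lam : Fin d → ℝ} (hk : 1 ≤ k) (hlam : ∀ i, 0 < lam i) (M : ℕ) :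
    (Sph k d lam M).Finite := by
  classical
  refine Set.Finite.subset (Finset.finite_toSet
    (Fintype.piFinset fun i => Finset.Icc (-(⌈((M : ℝ) + 1) / lam i⌉₊ : ℤ))
      (⌈((M : ℝ) + 1) / lam i⌉₊ : ℤ))) ?_
  intro m hm
  rw [Finset.mem_coe, Fintype.mem_piFinset]
  intro i
  have h0 : ∑ i, ⌊lam i * |(m i : ℝ)| ^ k⌋₊ = M := hm
  have h1 : ⌊lam i * |(m i : ℝ)| ^ k⌋₊ ≤ M := by
    rw [← h0]
    exact Finset.single_le_sum (f := fun i => ⌊lam i * |(m i : ℝ)| ^ k⌋₊)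
      (fun _ _ => Nat.zero_le _) (mem_univ i)
  have h2 : lam i * |(m i : ℝ)| ^ k < M + 1 := by
    have h3 := Nat.lt_floor_add_one (lam i * |(m i : ℝ)| ^ k)
    have h4 : ((⌊lam i * |(m i : ℝ)| ^ k⌋₊ : ℕ) : ℝ) ≤ M := by exact_mod_cast h1
    linarith
  have h5 : |(m i : ℝ)| ≤ ⌈((M : ℝ) + 1) / lam i⌉₊ := by
    refine le_trans ?_ (Nat.le_ceil _)
    rw [le_div_iff₀ (hlam i)]
    have h6 : |(m i : ℝ)| ≤ |(m i : ℝ)| ^ k ∨ m i = 0 := by
      by_cases hz : m i = 0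
      · exact Or.inr hz
      · left
        have h7 : (1 : ℝ) ≤ |(m i : ℝ)| := by exact_mod_cast Int.one_le_abs hz
        exact le_self_pow₀ h7 (by omega)
    have hl := hlam i
    rcases h6 with h6 | h6
    · nlinarith
    · rw [h6]
      simp
      positivity
  rw [abs_le] at h5
  rw [mem_Icc]
  constructor
  · exact_mod_cast h5.1
  · exact_mod_cast h5.2

/-- **Main result.** -/
theorem result (k d : ℕ) (hk : 2 ≤ k) (hd : 2 * k + 1 ≤ d) :
    ∀ᵐ lam : Fin d → ℝ, (∀ i, 0 < lam i) →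
      (∀ M : ℕ, (Sph k d lam M).Finite) ∧ 0 < Cst k d lam ∧
      -- the asymptotic formula
      Tendsto (fun M : ℕ => ((Sph k d lam M).ncard : ℝ) / (M : ℝ) ^ ((d : ℝ) / k - 1)) atTop
        (nhds (Cst k d lam)) ∧
      -- the order of magnitude, in terms of the radius
      ∃ c C r₀ : ℝ, 0 < c ∧ ∀ (r : ℝ) (M : ℕ), r₀ ≤ r → 0 ≤ r → r ^ k = M →
        c * r ^ (d - k) ≤ ((Sph k d lam M).ncard : ℝ) ∧
          ((Sph k d lam M).ncard : ℝ) ≤ C * r ^ (d - k) := by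
  have hmain := Pool.Agent.Run7.h757.MW.asym Pool.Agent.Run7.h382.MW.t_AFEJ
    Pool.Agent.Run7.h544.MW.t_LAT Pool.Agent.Run7.h544.MW.t_AVG d k hk hd
  filter_upwards [hmain] with lam hlam hpos
  have hC0 := Cst_pos (k := k) (d := d) (by omega) (by omega) hpos
  have hk0 : (0 : ℝ) < k := by
    have : 0 < k := by omega
    exact_mod_cast this
  have htend : Tendsto (fun M : ℕ => ((Sph k d lam M).ncard : ℝ) / (M : ℝ) ^ ((d : ℝ) / k - 1))
      atTop (nhds (Cst k d lam)) := by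
    rw [Metric.tendsto_atTop]
    intro ε hε
    obtain ⟨M₀, hM₀⟩ := eventually_atTop.1 ((hlam hpos (ε / 2) (by positivity)).and
      (eventually_ge_atTop 1))
    refine ⟨M₀, fun M hM => ?_⟩
    obtain ⟨h1, h2⟩ := hM₀ M hM
    have hM0 : (0 : ℝ) < M := by exact_mod_cast h2
    have hY : (0 : ℝ) < (M : ℝ) ^ ((d : ℝ) / k - 1) := Real.rpow_pos_of_pos hM0 _
    rw [Cst_eq (by omega) (by omega)] at h1
    rw [Sph_eq, Real.dist_eq]
    have h3 : (Pool.Agent.Run7.h757.MW.NZ d k lam M : ℝ) / (M : ℝ) ^ ((d : ℝ) / k - 1) -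
        Cst k d lam = ((Pool.Agent.Run7.h757.MW.NZ d k lam M : ℝ) -
          Cst k d lam * (M : ℝ) ^ ((d : ℝ) / k - 1)) / (M : ℝ) ^ ((d : ℝ) / k - 1) := by
      field_simp
    rw [h3, abs_div, abs_of_pos hY, div_lt_iff₀ hY]
    refine lt_of_le_of_lt h1 ?_
    have : ε / 2 < ε := by linarith
    gcongr
  refine ⟨finite_Sph (by omega) hpos, hC0, htend, ?_⟩
  -- the order of magnitude
  have h1 := htend.eventually (Ioo_mem_nhds (show Cst k d lam / 2 < Cst k d lam by linarith)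
    (show Cst k d lam < 2 * Cst k d lam by linarith))
  obtain ⟨M₀, hM₀⟩ := eventually_atTop.1 (h1.and (eventually_ge_atTop 1))
  refine ⟨Cst k d lam / 2, 2 * Cst k d lam, M₀ + 1, by positivity, fun r M hr hr0 hrM => ?_⟩
  have hr1 : 1 ≤ r := by
    have : (0 : ℝ) ≤ M₀ := by positivity
    linarith
  have hMM : M₀ ≤ M := by
    have h2 : r ≤ r ^ k := le_self_pow₀ hr1 (by omega)
    have h3 : (M₀ : ℝ) ≤ M := by
      rw [← hrM]
      linarith
    exact_mod_cast h3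
  obtain ⟨⟨h2, h3⟩, h4⟩ := hM₀ M hMM
  have hM0 : (0 : ℝ) < M := by exact_mod_cast h4
  have hY : (0 : ℝ) < (M : ℝ) ^ ((d : ℝ) / k - 1) := Real.rpow_pos_of_pos hM0 _
  have hYr : (M : ℝ) ^ ((d : ℝ) / k - 1) = r ^ (d - k) := by
    rw [← hrM, ← Real.rpow_natCast r k, ← Real.rpow_mul hr0, ← Real.rpow_natCast r (d - k)]
    congr 1
    rw [Nat.cast_sub (by omega)]
    field_simp
  rw [lt_div_iff₀ hY, hYr] at h2
  rw [div_lt_iff₀ hY, hYr] at h3
  exact ⟨h2.le, h3.le⟩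

end Pool.Agent.Results.MP_927be3_nt.GenericSphereAsymptotic
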