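import Mathlib
import Pool.Agent.TH854.KS.K7

set_option autoImplicit false

/-!
# Lower bounds for `d_0(k)` from the primes `p` with `p - 1 ∣ k`

If `p` is an odd prime with `p - 1 ∣ k` and `p ^ θ ∣ k`, then `x ^ k` is `0` or `1` modulo `p ^ (θ + 1)`,
and so a sum of fewer than `p ^ (θ + 1)` powers `|x_i| ^ k` is divisible by `p ^ (θ + 1)` only if all the
`x_i` are divisible by `p`.  By descent the sphere of radius `p ^ j` is `p ^ j` times the sphere of radius
one, which has `2 d` points.  The same holds for `p = 2` with `2 ^ (θ + 2)`, if `k` is even.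
-/

open Finset

namespace Pool.Agent.Results.MP_927be3_nt.LocalObstruction

/-- The arithmetic `k`-sphere `S_{k,d}(r)` of radius `r` in dimension `d`. -/
def sphere (k d : ℕ) (r : ℝ) : Set (Fin d → ℤ) := {m | ∑ i, |(m i : ℝ)| ^ k = r ^ k}

/-- `N_{k,d}(r) ≍ r^{d-k}`: there are `0 < c ≤ C` and `r₀` with `c r^{d-k} ≤ N_{k,d}(r) ≤ C r^{d-k}`
for all radii `r ≥ r₀`, `r > 0`, with non-empty `S_{k,d}(r)`. -/
def OrderHolds (k d : ℕ) : Prop :=
  ∃ c C r₀ : ℝ, 0 < c ∧ c ≤ C ∧ ∀ r : ℝ, 0 < r → r₀ ≤ r → (sphere k d r).Nonempty →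
    c * r ^ ((d : ℝ) - k) ≤ ((sphere k d r).ncard : ℝ) ∧
      ((sphere k d r).ncard : ℝ) ≤ C * r ^ ((d : ℝ) - k)

/-- `q` separates: `x ^ k` is `0` modulo `q` if `p ∣ x` and `1` otherwise -/
def Sep (p q k : ℕ) : Prop := ∀ x : ℕ, x ^ k ≡ (if p ∣ x then 0 else 1) [MOD q]

theorem all_dvd {p q k d : ℕ} (hs : Sep p q k) (hd : d < q) {m : Fin d → ℤ}
    (h : q ∣ ∑ i, (m i).natAbs ^ k) (i : Fin d) : (p : ℤ) ∣ m i := by
  classical
  by_contra hi
  have h1 : ∑ i, (m i).natAbs ^ k ≡ ∑ i, (if p ∣ (m i).natAbs then 0 else 1) [MOD q] := by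
    have : ∀ s : Finset (Fin d), ∑ i ∈ s, (m i).natAbs ^ k ≡
        ∑ i ∈ s, (if p ∣ (m i).natAbs then 0 else 1) [MOD q] := by
      intro s
      induction s using Finset.induction_on with
      | empty => simp [Nat.ModEq.refl]
      | insert a s ha ih =>
        rw [Finset.sum_insert ha, Finset.sum_insert ha]
        exact (hs _).add ih
    exact this _
  have h2 : q ∣ ∑ i, (if p ∣ (m i).natAbs then 0 else 1) :=
    (Nat.modEq_zero_iff_dvd.mp (h1.symm.trans (Nat.modEq_zero_iff_dvd.mpr h)))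
  have h3 : ∑ i, (if p ∣ (m i).natAbs then 0 else 1) ≤ d := by
    calc ∑ i, (if p ∣ (m i).natAbs then 0 else 1) ≤ ∑ i : Fin d, 1 := by
          apply Finset.sum_le_sum
          intro j _
          split_ifs <;> omega
      _ = d := by simp
  have h4 : 0 < ∑ i, (if p ∣ (m i).natAbs then 0 else 1) := by
    apply Finset.sum_pos'
    · intro j _
      positivity
    · refine ⟨i, Finset.mem_univ _, ?_⟩
      rw [if_neg]
      · exact one_pos
      · intro hp
        exact hi (Int.natCast_dvd.mpr hp)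
  exact absurd (Nat.le_of_dvd h4 h2) (by omega)

theorem sum_abs {k d : ℕ} (m : Fin d → ℤ) :
    ∑ i, |(m i : ℝ)| ^ k = ((∑ i, (m i).natAbs ^ k : ℕ) : ℝ) := by
  push_cast
  apply Finset.sum_congr rfl
  intro i _
  rw [Nat.cast_natAbs, Int.cast_abs]

theorem sphere_pow {p q k d : ℕ} (hp : 0 < p) (hs : Sep p q k) (hd : d < q) (hq : q ∣ p ^ k)
    (j : ℕ) : (sphere k d ((p : ℝ) ^ j)).ncard = (sphere k d 1).ncard := by
  induction j with
  | zero => simp
  | succ j ih =>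
    rw [← ih]
    have : sphere k d ((p : ℝ) ^ (j + 1)) =
        (fun (m : Fin d → ℤ) (i : Fin d) => (p : ℤ) * m i) '' sphere k d ((p : ℝ) ^ j) := by
      ext m
      simp only [sphere, Set.mem_ofPred_eq, Set.mem_image]
      constructor
      · intro hm
        have h1 : ∑ i, (m i).natAbs ^ k = (p ^ (j + 1)) ^ k := by
          rw [sum_abs] at hm
          exact_mod_cast hm
        have h2 : q ∣ ∑ i, (m i).natAbs ^ k := by
          rw [h1, pow_succ, mul_pow]
          exact hq.mul_left _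
        have h3 : ∀ i, ∃ c : ℤ, m i = p * c := fun i => all_dvd hs hd h2 i
        choose c hc using h3
        refine ⟨c, ?_, ?_⟩
        · have h4 : ∑ i, |(m i : ℝ)| ^ k = (p : ℝ) ^ k * ∑ i, |(c i : ℝ)| ^ k := by
            rw [Finset.mul_sum]
            apply Finset.sum_congr rfl
            intro i _
            rw [hc i]
            push_cast
            rw [abs_mul, mul_pow, abs_of_nonneg (by positivity : (0 : ℝ) ≤ p)]
          rw [h4, pow_succ, mul_pow, mul_comm] at hm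
          have h5 : (p : ℝ) ^ k ≠ 0 := by positivity
          exact mul_right_cancel₀ h5 hm
        · funext i
          exact (hc i).symm
      · rintro ⟨c, hc, rfl⟩
        rw [pow_succ, mul_pow, ← hc, Finset.sum_mul]
        apply Finset.sum_congr rfl
        intro i _
        push_cast
        rw [abs_mul, mul_pow, abs_of_nonneg (by positivity : (0 : ℝ) ≤ p)]
        ring
    rw [this]
    apply Set.ncard_image_of_injective
    intro a b hab
    funext i
    have := congrFun hab i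
    have hp' : (p : ℤ) ≠ 0 := by exact_mod_cast hp.ne'
    exact mul_left_cancel₀ hp' this

theorem sphere_one_nonempty {p k d : ℕ} (hk : k ≠ 0) (hd : 1 ≤ d) (j : ℕ) :
    (sphere k d ((p : ℝ) ^ j)).Nonempty := by
  refine ⟨fun i => if i = ⟨0, hd⟩ then (p : ℤ) ^ j else 0, ?_⟩
  simp only [sphere, Set.mem_ofPred_eq]
  rw [Finset.sum_eq_single (⟨0, hd⟩ : Fin d)]
  · simp
  · intro b _ hb
    simp [hb, hk]
  · intro h
    exact absurd (Finset.mem_univ _) h

theorem fails {p q k d : ℕ} (hk : 3 ≤ k) (hp : 2 ≤ p) (hs : Sep p q k) (hd1 : 1 ≤ d)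
    (hq : q ∣ p ^ k) (h : OrderHolds k d) : q ≤ d := by
  by_contra hdq
  push Not at hdq
  obtain ⟨c, C, r₀, hc, hcC, h⟩ := h
  have hkd : k + 2 ≤ d := by
    by_contra hcon
    exact Pool.Agent.TH854.KS.fails_low hk hd1 (by omega) ⟨c, C, r₀, hc, h⟩
  set N : ℝ := ((sphere k d 1).ncard : ℝ) with hN
  have hp1 : (1 : ℝ) < p := by exact_mod_cast (by omega : 1 < p)
  have htend : Filter.Tendsto (fun j : ℕ => (p : ℝ) ^ j) Filter.atTop Filter.atTop :=
    tendsto_pow_atTop_atTop_of_one_lt hp1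
  obtain ⟨j, hj1, hj2⟩ := ((htend.eventually_ge_atTop r₀).and
    (htend.eventually_gt_atTop (N / c))).exists
  have hpos : (0 : ℝ) < (p : ℝ) ^ j := by positivity
  have h1 := (h ((p : ℝ) ^ j) hpos hj1 (sphere_one_nonempty (by omega) hd1 j)).1
  rw [sphere_pow (by omega) hs hdq hq, ← hN] at h1
  have h2 : (p : ℝ) ^ j ≤ ((p : ℝ) ^ j) ^ ((d : ℝ) - k) := by
    have h3 : (1 : ℝ) ≤ (p : ℝ) ^ j := one_le_pow₀ hp1.le
    have h4 : (1 : ℝ) ≤ (d : ℝ) - k := by
      have : ((k + 2 : ℕ) : ℝ) ≤ d := by exact_mod_cast hkd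
      push_cast at this
      linarith
    calc (p : ℝ) ^ j = ((p : ℝ) ^ j) ^ (1 : ℝ) := (Real.rpow_one _).symm
      _ ≤ _ := Real.rpow_le_rpow_of_exponent_le h3 h4
  have h5 : N < c * (p : ℝ) ^ j := by
    rw [div_lt_iff₀ hc] at hj2
    linarith
  have h6 : c * (p : ℝ) ^ j ≤ c * ((p : ℝ) ^ j) ^ ((d : ℝ) - k) :=
    mul_le_mul_of_nonneg_left h2 hc.le
  linarith

theorem sep_odd {p θ k : ℕ} (hp : p.Prime) (hθ : p ^ θ ∣ k) (hk : (p - 1) ∣ k) (hk0 : 0 < k) :
    Sep p (p ^ (θ + 1)) k := by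
  intro x
  split_ifs with h
  · rw [Nat.modEq_zero_iff_dvd]
    have h1 : θ + 1 ≤ k := by
      have h2 : θ < p ^ θ := Nat.lt_pow_self hp.one_lt
      have h3 : p ^ θ ≤ k := Nat.le_of_dvd hk0 hθ
      omega
    exact (pow_dvd_pow p h1).trans (pow_dvd_pow_of_dvd h k)
  · have h1 : Nat.totient (p ^ (θ + 1)) ∣ k := by
      rw [Nat.totient_prime_pow_succ hp]
      apply Nat.Coprime.mul_dvd_of_dvd_of_dvd _ hθ hk
      apply Nat.Coprime.pow_left
      have h2 := hp.two_le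
      exact (hp.coprime_iff_not_dvd).mpr (Nat.not_dvd_of_pos_of_lt (by omega) (by omega))
    obtain ⟨t, rfl⟩ := h1
    rw [pow_mul]
    have h2 : x.Coprime (p ^ (θ + 1)) :=
      Nat.Coprime.pow_right _ ((Nat.Prime.coprime_iff_not_dvd hp).mpr h).symm
    have h3 := (Nat.ModEq.pow_totient h2).pow t
    simpa using h3

theorem odd_pow {x : ℤ} (hx : Odd x) (n : ℕ) : (2 : ℤ) ^ (n + 3) ∣ x ^ (2 ^ (n + 1)) - 1 := by
  induction n with
  | zero =>
    have := Int.eight_dvd_sq_sub_one_of_odd hx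
    simpa using this
  | succ n ih =>
    have h1 : x ^ (2 ^ (n + 1 + 1)) - 1 = (x ^ (2 ^ (n + 1)) - 1) * (x ^ (2 ^ (n + 1)) + 1) := by
      rw [pow_succ 2 (n + 1), pow_mul]
      ring
    rw [h1, show n + 1 + 3 = (n + 3) + 1 from by ring, pow_succ]
    apply mul_dvd_mul ih
    have h2 : Even (x ^ (2 ^ (n + 1)) + 1) := (hx.pow).add_one
    exact h2.two_dvd

theorem sep_two {θ k : ℕ} (hθ1 : 1 ≤ θ) (hθ : 2 ^ θ ∣ k) (hk : 3 ≤ k) :
    Sep 2 (2 ^ (θ + 2)) k := by
  intro x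
  split_ifs with h
  · rw [Nat.modEq_zero_iff_dvd]
    have h1 : θ + 2 ≤ k := by
      rcases Nat.lt_or_ge θ 2 with h2 | h2
      · omega
      · have h3 : θ + 2 ≤ 2 ^ θ := by
          obtain ⟨n, rfl⟩ := Nat.exists_eq_add_of_le h2
          clear hθ hθ1 h2
          induction n with
          | zero => norm_num
          | succ n ih =>
            have : 2 ^ (2 + (n + 1)) = 2 * 2 ^ (2 + n) := by ring
            omega
        have h4 : 2 ^ θ ≤ k := Nat.le_of_dvd (by omega) hθ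
        omega
    exact (pow_dvd_pow 2 h1).trans (pow_dvd_pow_of_dvd h k)
  · obtain ⟨n, rfl⟩ := Nat.exists_eq_add_of_le hθ1
    obtain ⟨t, rfl⟩ := hθ
    have hx : Odd (x : ℤ) := by
      rw [← Int.not_even_iff_odd, even_iff_two_dvd]
      intro h'
      exact h (by exact_mod_cast h')
    have h1 := odd_pow hx n
    have h2 : x ^ (2 ^ (1 + n)) ≡ 1 [MOD 2 ^ (1 + n + 2)] := by
      apply Nat.ModEq.symm
      rw [Nat.modEq_iff_dvd]
      push_cast
      rw [show 1 + n = n + 1 from by ring]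
      exact h1
    rw [pow_mul]
    simpa using h2.pow t

/-- **Lower bounds for `d_0(k)`.** Suppose that `N_{k,d}(r) ≍ r^{d-k}` holds in dimension `d`, where
`k ≥ 3`.  Then `d ≥ p ^ (θ + 1)` for all odd primes `p` with `p - 1 ∣ k` and `p ^ θ ∣ k`, and
`d ≥ 2 ^ (θ + 2)` if `2 ^ θ ∣ k`, `θ ≥ 1`.  In particular `d_0(4) ≥ 16`, `d_0(6) ≥ 9`,
`d_0(2 ^ θ) ≥ 4 * 2 ^ θ` for `θ ≥ 2`, and `d_0((p - 1) p ^ θ) ≥ p ^ (θ + 1)`. -/
theorem result (k : ℕ) (hk : 3 ≤ k) (d : ℕ) (hd : 1 ≤ d) (h : OrderHolds k d) :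
    (∀ p θ : ℕ, p.Prime → p ≠ 2 → (p - 1) ∣ k → p ^ θ ∣ k → p ^ (θ + 1) ≤ d) ∧
      (∀ θ : ℕ, 1 ≤ θ → 2 ^ θ ∣ k → 2 ^ (θ + 2) ≤ d) := by
  constructor
  · intro p θ hp _ hpk hθ
    refine fails hk hp.two_le (sep_odd hp hθ hpk (by omega)) hd ?_ h
    apply pow_dvd_pow
    have h2 : θ < p ^ θ := Nat.lt_pow_self hp.one_lt
    have h3 : p ^ θ ≤ k := Nat.le_of_dvd (by omega) hθ
    omega
  · intro θ hθ1 hθ
    refine fails hk le_rfl (sep_two hθ1 hθ hk) hd ?_ h
    apply pow_dvd_pow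
    rcases Nat.lt_or_ge θ 2 with h2 | h2
    · omega
    · have h3 : θ + 2 ≤ 2 ^ θ := by
        obtain ⟨n, rfl⟩ := Nat.exists_eq_add_of_le h2
        clear hθ hθ1 h2
        induction n with
        | zero => norm_num
        | succ n ih =>
          have : 2 ^ (2 + (n + 1)) = 2 * 2 ^ (2 + n) := by ring
          omega
      have h4 : 2 ^ θ ≤ k := Nat.le_of_dvd (by omega) hθ
      omega

end Pool.Agent.Results.MP_927be3_nt.LocalObstruction
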