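import Pool.Agent.Run7.h927.WS.ZB

/-!
# MP_927be3_nt: lattice points in thin shells around arithmetic `k`-spheres with a random centre

For `k ≥ 2`, `d ≥ 2k+1` and almost every centre `θ ∈ ℝ^d`, the number of the lattice points `m ∈ ℤ^d` with
`||m₁ - θ₁|^k + … + |m_d - θ_d|^k - r^k| ≤ ε` is `2 ε (2 Γ(1+1/k))^d / Γ(d/k) r^(d-k)` with an error of at most
`ε r^(d - k - 1/25)`, for all large real `r` and all `ε` with `r^(-1/25) ≤ ε ≤ 1`. In particular it is of exact order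
`r^(d-k)` for `ε = 1`, in every dimension `d ≥ 2k+1`.
-/

namespace Pool.Agent.Results.MP_927be3_nt.ShellAsymptotics

open MeasureTheory Filter

/-- the lattice points in the shell of width `2ε` around the `k`-sphere of radius `r` with centre `θ` -/
def Shell (k d : ℕ) (θ : Fin d → ℝ) (r ε : ℝ) : Set (Fin d → ℤ) :=
  {m | |∑ i, |(m i : ℝ) - θ i| ^ k - r ^ k| ≤ ε}

theorem result (k d : ℕ) (hk : 2 ≤ k) (hd : 2 * k + 1 ≤ d) :
    ∀ᵐ θ : Fin d → ℝ, ∀ᶠ r : ℝ in atTop, ∀ ε : ℝ, r ^ (-(1 / 25) : ℝ) ≤ ε → ε ≤ 1 →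
      |((Shell k d θ r ε).ncard : ℝ) -
          2 * ε * ((2 * Real.Gamma (1 / k + 1)) ^ d / Real.Gamma ((d : ℝ) / k) * r ^ ((d : ℝ) - k))| ≤
        ε * r ^ ((d : ℝ) - k - 1 / 25) := by
  filter_upwards [Pool.Agent.Run7.h927.WS.asym_centres k d hk hd] with θ hθ
  obtain ⟨ν₀, hν₀⟩ := hθ
  have hk0 : (0 : ℝ) < k := by exact_mod_cast (by omega : 0 < k)
  have h1 : Tendsto (fun r : ℝ => r ^ k) atTop atTop := tendsto_pow_atTop (by omega)
  filter_upwards [h1.eventually (eventually_ge_atTop ν₀), eventually_gt_atTop 0] with r hr hr0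
  intro ε hε1 hε2
  have e1 : ∀ x : ℝ, (r ^ k) ^ (x / k) = r ^ x := by
    intro x
    rw [← Real.rpow_natCast, ← Real.rpow_mul hr0.le, mul_div_cancel₀ x hk0.ne']
  have e2 : (r ^ k) ^ (-(1 / (25 * k)) : ℝ) = r ^ (-(1 / 25) : ℝ) := by
    rw [← e1]
    congr 1
    field_simp
  have e3 : (r ^ k) ^ ((d : ℝ) / k - 1) = r ^ ((d : ℝ) - k) := by
    rw [← e1]
    congr 1
    field_simp
  have e4 : (r ^ k) ^ ((d : ℝ) / k - 1 - 1 / (25 * k)) = r ^ ((d : ℝ) - k - 1 / 25) := by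
    rw [← e1]
    congr 1
    field_simp
  have h2 := hν₀ (r ^ k) hr ε (by rw [e2]; exact hε1) hε2
  rw [e3, e4] at h2
  exact h2

end Pool.Agent.Results.MP_927be3_nt.ShellAsymptotics
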